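import Pool.Agent.Helper34.ST.Basic

set_option autoImplicit false

namespace Pool.Agent.Helper34.ST

open Finset

/-- the sum over a period does not depend on the start -/
theorem wnl_period (f : ℤ → ℝ) (L : ℕ) (hf : ∀ i, f (i + L) = f i) (k : ℕ) :
    ∑ o ∈ range L, f (o + k) = ∑ o ∈ range L, f o := by
  induction k with
  | zero => simp
  | succ k ih =>
    have h1 : ∑ o ∈ range (L + 1), f (o + k) = ∑ o ∈ range L, f (o + k) + f (L + k) :=
      Finset.sum_range_succ (fun o : ℕ => f (o + k)) L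
    have h2 : ∑ o ∈ range (L + 1), f (o + k)
        = ∑ o ∈ range L, f (((o + 1 : ℕ) : ℤ) + k) + f (((0 : ℕ) : ℤ) + k) :=
      Finset.sum_range_succ' (fun o : ℕ => f (o + k)) L
    have h3 : ∑ o ∈ range L, f (((o + 1 : ℕ) : ℤ) + k)
        = ∑ o ∈ range L, f (o + ((k + 1 : ℕ) : ℤ)) := by
      refine Finset.sum_congr rfl fun o _ => ?_
      congr 1
      push_cast
      ring
    have h4 : f ((L : ℤ) + k) = f (((0 : ℕ) : ℤ) + k) := by
      have := hf (k : ℤ)
      rw [add_comm (k : ℤ) (L : ℤ)] at this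
      rw [this]
      simp
    rw [← h3, ← ih]
    linarith

/-- the best offset -/
theorem wnl_offset {ι : Type} (z : ι → ℝ) (u : ℤ → ι) (L : ℕ) (hL : 1 ≤ L)
    (hper : ∀ i, u (i + L) = u i) (hsum : ∑ i ∈ range L, z (u i) ≤ L) (j : ℕ) (e : ℕ → ℕ) :
    ∃ o : ℕ, ∑ i ∈ range j, (e i : ℝ) * (z (u (o + i)) + z (u (o + i + 1)))
      ≤ 2 * ∑ i ∈ range j, (e i : ℝ) := by
  have hz : ∀ k : ℕ, ∑ o ∈ range L, z (u (o + k)) = ∑ o ∈ range L, z (u o) := fun k =>
    wnl_period (fun i => z (u i)) L (fun i => by rw [hper]) k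
  have h1 : ∑ o ∈ range L, ∑ i ∈ range j, (e i : ℝ) * (z (u (o + i)) + z (u (o + i + 1)))
      ≤ ∑ o ∈ range L, 2 * ∑ i ∈ range j, (e i : ℝ) := by
    rw [Finset.sum_comm]
    have h2 : ∀ i ∈ range j, ∑ o ∈ range L, (e i : ℝ) * (z (u (o + i)) + z (u (o + i + 1)))
        ≤ (e i : ℝ) * (2 * L) := by
      intro i _
      rw [← Finset.mul_sum, Finset.sum_add_distrib, hz i]
      have h3 : ∑ o ∈ range L, z (u ((o : ℤ) + i + 1)) = ∑ o ∈ range L, z (u o) := by
        rw [← hz (i + 1)]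
        refine Finset.sum_congr rfl fun o _ => ?_
        push_cast
        rw [add_assoc]
      rw [h3]
      apply mul_le_mul_of_nonneg_left _ (Nat.cast_nonneg _)
      linarith
    calc ∑ i ∈ range j, ∑ o ∈ range L, (e i : ℝ) * (z (u (o + i)) + z (u (o + i + 1)))
        ≤ ∑ i ∈ range j, (e i : ℝ) * (2 * L) := Finset.sum_le_sum h2
      _ = ∑ o ∈ range L, 2 * ∑ i ∈ range j, (e i : ℝ) := by
          rw [← Finset.sum_mul, Finset.sum_const, Finset.card_range, nsmul_eq_mul]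
          ring
  obtain ⟨o, _, ho⟩ := Finset.exists_le_of_sum_le (Finset.nonempty_range_iff.2 (by omega)) h1
  exact ⟨o, ho⟩

theorem st_WNL (h1 : ST_MMCS) (h2 : ST_INJ) (h3 : ST_SEL) : ST_WNL := by
  classical
  intro ι _ r d hd hw z hz C g c hg hC hpred x hx j e
  have hcl : ∀ x ∈ C, ∀ y, r x y → y ∈ C := fun x hx y hxy => (hC x hx y hxy).1
  rcases Nat.eq_or_lt_of_le hg with hg1 | hg2
  · subst hg1
    obtain ⟨L, u, hL, hu, huC, hper, hsum⟩ := h1 ι r d hd hw z hz C ⟨x, hx⟩ hcl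
    obtain ⟨o, ho⟩ := wnl_offset z u L hL hper hsum j e
    refine ⟨fun i => u (o + i), huC _, Subsingleton.elim _ _, fun i _ => ?_, ?_⟩
    · have := hu ((o : ℤ) + i)
      show r (u ((o : ℤ) + i)) (u ((o : ℤ) + ((i + 1 : ℕ) : ℤ)))
      have e1 : (o : ℤ) + ((i + 1 : ℕ) : ℤ) = (o : ℤ) + i + 1 := by
        push_cast
        ring
      rw [e1]
      exact this
    · have e1 : ∀ i : ℕ, (o : ℤ) + ((i + 1 : ℕ) : ℤ) = (o : ℤ) + i + 1 := fun i => by
        push_cast
        ring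
      show ∑ i ∈ range j, (e i : ℝ) * (z (u ((o : ℤ) + i)) + z (u ((o : ℤ) + ((i + 1 : ℕ) : ℤ)))) ≤ _
      simp only [e1]
      exact ho
  · haveI : Fact (1 < g) := ⟨hg2⟩
    have hD : ∀ y : ι, ⌈d⌉₊ ≤ {w | r y w}.ncard := fun y => Nat.ceil_le.2 (hw.ncard y)
    obtain ⟨q, hq, hqx⟩ := hpred x hx
    have hcx : c x = c q + 1 := (hC q hq x hqx).2
    set F0 : Finset ι := univ.filter (fun y => y ∈ C ∧ c y = c x) with hF0
    have hF0card : ⌈d⌉₊ ≤ F0.card := by
      refine (hD q).trans ?_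
      rw [← Set.ncard_coe_finset]
      refine Set.ncard_le_ncard ?_ (Set.toFinite _)
      intro y hy
      simp only [hF0, coe_filter, mem_univ, true_and, Set.mem_setOf_eq]
      exact ⟨(hC q hq y hy).1, by rw [(hC q hq y hy).2, hcx]⟩
    obtain ⟨F, hFs, hFc⟩ := Finset.exists_subset_card_eq hF0card
    have hFm : ∀ f ∈ F, f ∈ C ∧ c f = c x := fun f hf => by
      have := hFs hf
      rw [hF0, mem_filter] at this
      exact this.2
    obtain ⟨φ, hφ0, hφi, hφC⟩ := h2 ι r ⌈d⌉₊ F C hFc hcl (fun f hf => (hFm f hf).1)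
      (fun y _ => hD y)
    have hcφ : ∀ i : ℕ, ∀ f ∈ F, c (φ i f) = c x + i := by
      intro i
      induction i with
      | zero =>
        intro f hf
        rw [hφ0 f hf, (hFm f hf).2, Nat.cast_zero, add_zero]
      | succ i ih =>
        intro f hf
        have h5 := (hC _ (hφC i f hf).1 _ (hφC i f hf).2).2
        rw [h5, ih f hf, Nat.cast_succ, add_assoc]
    obtain ⟨f, hf, hle⟩ := h3 ι z d hd hz ⌈d⌉₊ F φ j e (Nat.le_ceil d) hFc hφi (by
      intro i _ f hf f' hf' heq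
      have h6 := hcφ i f hf
      have h7 := hcφ (i + 1) f' hf'
      rw [← heq, h6, Nat.cast_succ, add_right_inj] at h7
      have h8 : (1 : ZMod g) = 0 := by
        have h9 : (i : ZMod g) + 0 = (i : ZMod g) + 1 := by rw [add_zero]; exact h7
        exact (add_left_cancel h9).symm
      exact one_ne_zero h8)
    refine ⟨fun i => φ i f, ?_, ?_, fun i _ => (hφC i f hf).2, hle⟩
    · show φ 0 f ∈ C
      rw [hφ0 f hf]
      exact (hFm f hf).1
    · show c (φ 0 f) = c x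
      rw [hφ0 f hf]
      exact (hFm f hf).2

end Pool.Agent.Helper34.ST
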